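import Pool.Agent.Run7.h700.KC.Stm

set_option autoImplicit false

namespace Pool.Agent.Run7.h884.KC

open Metric Set Pool.Agent.Run7.h700.KC
open scoped ComplexConjugate

theorem norm_sub_le_norm_one_sub {u v : ℂ} (hu : ‖u‖ ≤ 1) (hv : ‖v‖ ≤ 1) :
    ‖u - v‖ ≤ ‖1 - conj v * u‖ := by
  have h1 : ‖u - v‖ ^ 2 ≤ ‖1 - conj v * u‖ ^ 2 := by
    rw [← Complex.normSq_eq_norm_sq, ← Complex.normSq_eq_norm_sq]
    have hu2 : u.re * u.re + u.im * u.im ≤ 1 := by
      have := Complex.sq_norm u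
      rw [Complex.normSq_apply] at this
      nlinarith [norm_nonneg u]
    have hv2 : v.re * v.re + v.im * v.im ≤ 1 := by
      have := Complex.sq_norm v
      rw [Complex.normSq_apply] at this
      nlinarith [norm_nonneg v]
    rw [Complex.normSq_apply, Complex.normSq_apply]
    simp only [Complex.sub_re, Complex.sub_im, Complex.mul_re, Complex.mul_im, Complex.conj_re,
      Complex.conj_im, Complex.one_re, Complex.one_im]
    nlinarith [mul_nonneg (sub_nonneg.2 hu2) (sub_nonneg.2 hv2)]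
  exact le_of_sq_le_sq h1 (norm_nonneg _)

theorem t_SP : S_SP := by
  intro φ a z R hR hd hb hz
  have haB : a ∈ ball a R := mem_ball_self hR
  have hzB : z ∈ ball a R := by
    rw [mem_ball]
    linarith
  rcases eq_or_lt_of_le (hb a haB) with h1 | h1
  · have h2 := Complex.eqOn_of_isPreconnected_of_isMaxOn_norm (convex_ball a R).isPreconnected
      isOpen_ball hd haB (fun w hw => by
        show ‖φ w‖ ≤ ‖φ a‖
        rw [h1]
        exact hb w hw)
    have h3 : φ z = φ a := h2 hzB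
    rw [h3, sub_self, norm_zero, h1]
    norm_num
  · set m := ‖φ a‖ with hm
    have hm0 : 0 ≤ m := norm_nonneg _
    have hden : ∀ w ∈ ball a R, 1 - conj (φ a) * φ w ≠ 0 := by
      intro w hw h
      have h2 : conj (φ a) * φ w = 1 := (sub_eq_zero.1 h).symm
      have h3 : ‖conj (φ a) * φ w‖ = 1 := by rw [h2, norm_one]
      rw [norm_mul, RCLike.norm_conj] at h3
      have h4 : ‖φ a‖ * ‖φ w‖ ≤ ‖φ a‖ * 1 := mul_le_mul_of_nonneg_left (hb w hw) (norm_nonneg _)
      linarith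
    let ψ : ℂ → ℂ := fun w => (φ w - φ a) / (1 - conj (φ a) * φ w)
    have hψ : DifferentiableOn ℂ ψ (ball a R) :=
      (hd.sub_const _).div ((differentiableOn_const _).sub ((differentiableOn_const _).mul hd)) hden
    have hψa : ψ a = 0 := by simp [ψ]
    have hψ1 : ∀ w ∈ ball a R, ‖ψ w‖ ≤ 1 := by
      intro w hw
      show ‖(φ w - φ a) / (1 - conj (φ a) * φ w)‖ ≤ 1
      rw [norm_div]
      exact div_le_one_of_le₀ (norm_sub_le_norm_one_sub (hb w hw) h1.le) (norm_nonneg _)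
    have hkey : ‖ψ z‖ ≤ 1 / 4 := by
      have h2 : ∀ ε : ℝ, 0 < ε → ‖ψ z‖ ≤ 1 / 4 + ε := by
        intro ε hε
        have h3 := Complex.dist_le_div_mul_dist_of_mapsTo_ball (R₂ := 1 + 4 * ε) hψ (fun w hw => by
          rw [hψa, mem_closedBall_zero_iff]
          linarith [hψ1 w hw]) hzB
        rw [hψa, dist_zero_right] at h3
        have h4 : (1 + 4 * ε) / R * dist z a ≤ (1 + 4 * ε) / R * (R / 4) :=
          mul_le_mul_of_nonneg_left hz (by positivity)
        have h5 : (1 + 4 * ε) / R * (R / 4) = 1 / 4 + ε := by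
          field_simp
        linarith
      exact le_of_forall_pos_le_add h2
    have h2 : φ z - φ a = ψ z * (1 - conj (φ a) * φ z) := by
      show φ z - φ a = (φ z - φ a) / (1 - conj (φ a) * φ z) * (1 - conj (φ a) * φ z)
      rw [div_mul_cancel₀ _ (hden z hzB)]
    have h3 : ‖1 - conj (φ a) * φ z‖ ≤ (1 - m ^ 2) + m * ‖φ z - φ a‖ := by
      have e : 1 - conj (φ a) * φ z = ((1 - m ^ 2 : ℝ) : ℂ) - conj (φ a) * (φ z - φ a) := by
        have h4 : conj (φ a) * φ a = ((m ^ 2 : ℝ) : ℂ) := by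
          rw [mul_comm, Complex.mul_conj, Complex.normSq_eq_norm_sq]
        rw [mul_sub, h4]
        push_cast
        ring
      rw [e]
      refine (norm_sub_le _ _).trans ?_
      rw [norm_mul, RCLike.norm_conj, Complex.norm_real, Real.norm_of_nonneg (by nlinarith)]
    have h4 : ‖φ z - φ a‖ ≤ 1 / 4 * ((1 - m ^ 2) + m * ‖φ z - φ a‖) := by
      have h5 : ‖φ z - φ a‖ = ‖ψ z‖ * ‖1 - conj (φ a) * φ z‖ := by
        rw [← norm_mul, ← h2]
      have h6 : 0 ≤ ‖1 - conj (φ a) * φ z‖ := norm_nonneg _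
      calc ‖φ z - φ a‖ = ‖ψ z‖ * ‖1 - conj (φ a) * φ z‖ := h5
        _ ≤ 1 / 4 * ‖1 - conj (φ a) * φ z‖ := mul_le_mul_of_nonneg_right hkey h6
        _ ≤ _ := mul_le_mul_of_nonneg_left h3 (by norm_num)
    have hD : 0 ≤ ‖φ z - φ a‖ := norm_nonneg _
    nlinarith [mul_nonneg (sub_nonneg.2 h1.le) hD, mul_nonneg (sub_nonneg.2 h1.le) hm0]

end Pool.Agent.Run7.h884.KC
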